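import Mathlib

/-!
A countable non-amenable group with a faithful action that is `n`-Liouville for every `n`.
-/

namespace Pool.Agent.Results.MP_2579e4_al.NonamenableLiouville

open Equiv

/-- `p_μ(y, z)`, the sum of `μ g` over all `g` with `g y = z` -/
noncomputable def transProb {G Y : Type} (a : G → Y → Y) (μ : G → ℝ) (y z : Y) : ℝ :=
  ∑' g : ((fun g : G => a g y) ⁻¹' {z} : Set G), μ g

/-- `f` is `μ`-harmonic. -/
def Harmonic {G Y : Type} (a : G → Y → Y) (μ : G → ℝ) (f : Y → ℝ) : Prop :=
  ∀ y, f y = ∑' z, f z * transProb a μ y z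

/-- `μ` is a probability measure. -/
def IsProb {G : Type} (μ : G → ℝ) : Prop := (∀ g, 0 ≤ μ g) ∧ HasSum μ 1

/-- The support of `μ` generates `G` as a semigroup. -/
def NonDegenerate {G : Type} [Group G] (μ : G → ℝ) : Prop :=
  Subsemigroup.closure {g : G | μ g ≠ 0} = ⊤

/-- Every bounded `μ`-harmonic function is constant. -/
def MuLiouville {G Y : Type} (a : G → Y → Y) (μ : G → ℝ) : Prop :=
  ∀ f : Y → ℝ, (∃ C, ∀ y, |f y| ≤ C) → Harmonic a μ f → ∀ y z, f y = f z

/-- The action `a` of the group `G` is Liouville. -/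
def Liouville {G Y : Type} [Group G] (a : G → Y → Y) : Prop :=
  ∃ μ : G → ℝ, IsProb μ ∧ NonDegenerate μ ∧ MuLiouville a μ

/-- the `n`-element subsets of `X` -/
abbrev PSub (X : Type) (n : ℕ) := {E : Finset X // E.card = n}

/-- the induced action on `n`-element subsets -/
def subAct {G X : Type} [Group G] [MulAction G X] (n : ℕ) (g : G) (E : PSub X n) : PSub X n :=
  ⟨E.1.map (MulAction.toPerm g).toEmbedding, by rw [Finset.card_map, E.2]⟩

/-- `G` is amenable: it has a left invariant finitely additive probability measure defined on all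
subsets. -/
def Amenable (G : Type) [Group G] : Prop :=
  ∃ m : Set G → ℝ, (∀ A, 0 ≤ m A) ∧ m Set.univ = 1 ∧
    (∀ A B, Disjoint A B → m (A ∪ B) = m A + m B) ∧ ∀ (g : G) (A : Set G), m ((g * ·) '' A) = m A

/-! ### harmonic functions -/

theorem harmonic_eq {G Y : Type} {a : G → Y → Y} {μ : G → ℝ} (hμ : IsProb μ) {f : Y → ℝ} {C : ℝ}
    (hC : ∀ y, |f y| ≤ C) (hf : Harmonic a μ f) (y : Y) : f y = ∑' g, μ g * f (a g y) := by
  have hs : Summable (fun g => μ g * f (a g y)) := by
    refine Summable.of_norm_bounded (g := fun g => μ g * C) (hμ.2.summable.mul_right C) fun g => ?_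
    rw [Real.norm_eq_abs, abs_mul, abs_of_nonneg (hμ.1 g)]
    exact mul_le_mul_of_nonneg_left (hC _) (hμ.1 g)
  have h1 := hs.hasSum.tsum_fiberwise (fun g : G => a g y)
  rw [hf y, ← h1.tsum_eq]
  apply tsum_congr
  intro z
  unfold transProb
  rw [← tsum_mul_left]
  apply tsum_congr
  rintro ⟨g, hg⟩
  have hg' : a g y = z := hg
  change f z * μ g = μ g * f (a g y)
  rw [hg', mul_comm]

/-! ### the construction of the measure -/

section construction

variable {G Y : Type} (a : G → Y → Y)

open Classical in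
/-- points reachable in at most `i` steps with increments in `T` -/
noncomputable def reach (T : Finset G) (A : Finset Y) : ℕ → Finset Y
  | 0 => A
  | i + 1 => reach T A i ∪ (T ×ˢ reach T A i).image (fun p => a p.1 p.2)

theorem reach_mono {T : Finset G} {A : Finset Y} {i j : ℕ} (h : i ≤ j) :
    reach a T A i ⊆ reach a T A j := by
  induction j, h using Nat.le_induction with
  | base => exact Finset.Subset.refl _
  | succ j _ ih => classical exact ih.trans Finset.subset_union_left

theorem reach_step {T : Finset G} {A : Finset Y} {i : ℕ} {y : Y} (hy : y ∈ reach a T A i) {g : G}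
    (hg : g ∈ T) : a g y ∈ reach a T A (i + 1) := by
  classical
  refine Finset.mem_union_right _ (Finset.mem_image.2 ⟨(g, y), Finset.mem_product.2 ⟨hg, hy⟩, rfl⟩)

/-- the tail weights -/
noncomputable def A (j : ℕ) : ℝ := (1 / 2) ^ (j ^ 2)

theorem A_pos (j : ℕ) : 0 < A j := by unfold A; positivity

theorem A_zero : A 0 = 1 := by simp [A]

theorem A_le (j : ℕ) : A (j + 1) ≤ A j := by
  unfold A
  exact pow_le_pow_of_le_one (by norm_num) (by norm_num) (Nat.pow_le_pow_left (Nat.le_succ j) 2)

theorem A_lt (j : ℕ) : A (j + 1) < A j := by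
  unfold A
  exact pow_lt_pow_right_of_lt_one₀ (by norm_num) (by norm_num)
    (Nat.pow_lt_pow_left (Nat.lt_succ_self j) (by norm_num))

theorem A_tendsto : Filter.Tendsto A Filter.atTop (nhds 0) := by
  have h1 : Filter.Tendsto (fun n : ℕ => ((1 : ℝ) / 2) ^ n) Filter.atTop (nhds 0) :=
    tendsto_pow_atTop_nhds_zero_of_lt_one (by norm_num) (by norm_num)
  refine h1.comp (Filter.tendsto_atTop_mono (fun n => ?_) Filter.tendsto_id)
  change n ≤ n ^ 2
  nlinarith

/-- the weights -/
noncomputable def tau (j : ℕ) : ℝ := A j - A (j + 1)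

theorem tau_pos (j : ℕ) : 0 < tau j := sub_pos.2 (A_lt j)

theorem sum_tau (k n : ℕ) : ∑ i ∈ Finset.range n, tau (i + k) = A k - A (n + k) := by
  induction n with
  | zero => simp
  | succ n ih =>
    rw [Finset.sum_range_succ, ih, tau]
    have : n + 1 + k = n + k + 1 := by ring
    rw [this]; ring

theorem hasSum_tau (k : ℕ) : HasSum (fun i => tau (i + k)) (A k) := by
  rw [hasSum_iff_tendsto_nat_of_nonneg (fun i => (tau_pos _).le)]
  simp only [sum_tau]
  have h := (A_tendsto.comp (Filter.tendsto_add_atTop_nat k)).const_sub (A k)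
  rw [sub_zero] at h
  exact h

/-- average over a finite set -/
noncomputable def avg (K : Finset G) (φ : G → ℝ) : ℝ := (K.card : ℝ)⁻¹ * ∑ g ∈ K, φ g

theorem avg_abs_le {K : Finset G} (hK : K.Nonempty) {φ : G → ℝ} {M : ℝ}
    (h : ∀ g ∈ K, |φ g| ≤ M) : |avg K φ| ≤ M := by
  have hc : 0 < (K.card : ℝ) := by exact_mod_cast hK.card_pos
  unfold avg
  rw [abs_mul, abs_of_pos (inv_pos.2 hc), inv_mul_le_iff₀ hc]
  calc |∑ g ∈ K, φ g| ≤ ∑ g ∈ K, |φ g| := Finset.abs_sum_le_sum_abs _ _
    _ ≤ ∑ _g ∈ K, M := Finset.sum_le_sum h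
    _ = K.card * M := by rw [Finset.sum_const, nsmul_eq_mul]

theorem avg_const {K : Finset G} (hK : K.Nonempty) (c : ℝ) : avg K (fun _ => c) = c := by
  have hc : (K.card : ℝ) ≠ 0 := by exact_mod_cast hK.card_pos.ne'
  unfold avg
  rw [Finset.sum_const, nsmul_eq_mul, ← mul_assoc, inv_mul_cancel₀ hc, one_mul]

theorem avg_sub {K : Finset G} (φ ψ : G → ℝ) : avg K (fun g => φ g - ψ g) = avg K φ - avg K ψ := by
  unfold avg
  rw [Finset.sum_sub_distrib, mul_sub]

/-- the uniform measure on a finite set -/
noncomputable def unif (K : Finset G) (g : G) : ℝ := by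
  classical
  exact if g ∈ K then (K.card : ℝ)⁻¹ else 0

theorem unif_nonneg (K : Finset G) (g : G) : 0 ≤ unif K g := by
  classical
  unfold unif
  split_ifs <;> positivity

theorem hasSum_unif (K : Finset G) (φ : G → ℝ) : HasSum (fun g => unif K g * φ g) (avg K φ) := by
  classical
  have h : avg K φ = ∑ g ∈ K, unif K g * φ g := by
    unfold avg
    rw [Finset.mul_sum]
    apply Finset.sum_congr rfl
    intro g hg
    simp [unif, hg]
  rw [h]
  apply hasSum_sum_of_ne_finset_zero
  intro g hg
  simp [unif, hg]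

variable (K : ℕ → Finset G)

/-- the measure -/
noncomputable def mu (g : G) : ℝ := ∑' j, tau j * unif (K j) g

theorem summable_h (hK : ∀ j, (K j).Nonempty) {φ : G → ℝ} {C : ℝ} (hφ : ∀ g, |φ g| ≤ C) :
    Summable (fun p : ℕ × G => tau p.1 * unif (K p.1) p.2 * φ p.2) := by
  have h1 : Summable (fun p : ℕ × G => tau p.1 * unif (K p.1) p.2) := by
    rw [summable_prod_of_nonneg (fun p => mul_nonneg (tau_pos _).le (unif_nonneg _ _))]
    have h2 : ∀ j, HasSum (fun g => tau j * unif (K j) g) (tau j) := by
      intro j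
      have h3 := (hasSum_unif (K j) (fun _ => 1)).mul_left (tau j)
      rw [avg_const (hK j)] at h3
      simpa using h3
    refine ⟨fun j => (h2 j).summable, ?_⟩
    have h4 : (fun j => ∑' g, tau j * unif (K j) g) = fun j => tau (j + 0) := by
      funext j; exact (h2 j).tsum_eq
    simp only [h4]
    exact (hasSum_tau 0).summable
  refine Summable.of_norm_bounded (g := fun p : ℕ × G => tau p.1 * unif (K p.1) p.2 * C)
    (h1.mul_right C) fun p => ?_
  rw [Real.norm_eq_abs, abs_mul, abs_of_nonneg (mul_nonneg (tau_pos _).le (unif_nonneg _ _))]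
  exact mul_le_mul_of_nonneg_left (hφ _) (mul_nonneg (tau_pos _).le (unif_nonneg _ _))

theorem summable_mu (hK : ∀ j, (K j).Nonempty) (g : G) :
    Summable (fun j => tau j * unif (K j) g) := by
  have h := (summable_h K hK (φ := fun _ => 1) (C := 1) (fun g => by simp)).prod_symm.prod_factor g
  simpa using h

theorem mu_integral (hK : ∀ j, (K j).Nonempty) {φ : G → ℝ} {C : ℝ} (hφ : ∀ g, |φ g| ≤ C) :
    HasSum (fun g => mu K g * φ g) (∑' j, tau j * avg (K j) φ) := by
  have hs := summable_h K hK hφ
  have h1 := hs.prod_symm.prod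
  have h2 : (fun g => mu K g * φ g) =
      fun g => ∑' j, (fun p : ℕ × G => tau p.1 * unif (K p.1) p.2 * φ p.2) (j, g) := by
    funext g
    unfold mu
    rw [← tsum_mul_right]
  rw [h2]
  have h3 : Summable fun g => ∑' j, (fun p : ℕ × G => tau p.1 * unif (K p.1) p.2 * φ p.2) (j, g) :=
    h1
  have h4 : ∑' j, tau j * avg (K j) φ =
      ∑' j, ∑' g, (fun p : ℕ × G => tau p.1 * unif (K p.1) p.2 * φ p.2) (j, g) := by
    apply tsum_congr
    intro j
    have h5 := ((hasSum_unif (K j) φ).mul_left (tau j)).tsum_eq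
    rw [← h5]
    apply tsum_congr
    intro g
    simp only [mul_assoc]
  rw [h4]
  have h6 := Summable.tsum_comm (f := fun (j : ℕ) (g : G) => tau j * unif (K j) g * φ g) hs
  have h7 : HasSum (fun g => ∑' j, (fun p : ℕ × G => tau p.1 * unif (K p.1) p.2 * φ p.2) (j, g))
      (∑' (c : G) (b : ℕ), tau b * unif (K b) c * φ c) := h3.hasSum
  rw [h6] at h7
  exact h7

theorem mu_isProb (hK : ∀ j, (K j).Nonempty) : IsProb (mu K) := by
  refine ⟨fun g => tsum_nonneg fun j => mul_nonneg (tau_pos _).le (unif_nonneg _ _), ?_⟩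
  have h := mu_integral K hK (φ := fun _ => 1) (C := 1) (fun g => by simp)
  have h1 : (∑' j, tau j * avg (K j) (fun _ => 1)) = 1 := by
    have h2 := (hasSum_tau 0).tsum_eq
    rw [A_zero] at h2
    refine (tsum_congr fun j => ?_).trans h2
    rw [avg_const (hK j), mul_one, add_zero]
  rw [h1] at h
  simpa using h

/-- The main estimate. -/
theorem estimate (hK : ∀ j, (K j).Nonempty) {f : Y → ℝ} {C : ℝ} (hC : ∀ y, |f y| ≤ C)
    (hf : Harmonic a (mu K) f) {j m : ℕ} {T : Finset G} (hT : ∀ l < j, K l ⊆ T) {B : Finset Y}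
    {c : ℝ} (hc : |c| ≤ C) (hB : ∀ y ∈ reach a T B m, avg (K j) (fun g => f (a g y)) = c) :
    ∀ i ≤ m, ∀ y ∈ reach a T B (m - i),
      |f y - c| ≤ (1 - A j) ^ i * (2 * C) + 2 * C * (A (j + 1) / A j) := by
  have hC0 : 0 ≤ C := (abs_nonneg c).trans hc
  have hA := A_pos j
  have hA' := A_pos (j + 1)
  have hA1 : A j ≤ 1 := by
    unfold A; exact pow_le_one₀ (by norm_num) (by norm_num)
  intro i
  induction i with
  | zero =>
    intro _ y _
    have h1 := hC y
    have h2 : |f y - c| ≤ |f y| + |c| := abs_sub _ _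
    have h3 : 0 ≤ 2 * C * (A (j + 1) / A j) := by positivity
    rw [pow_zero, one_mul]
    linarith
  | succ i ih =>
    intro hi y hy
    set M := (1 - A j) ^ i * (2 * C) + 2 * C * (A (j + 1) / A j) with hM
    have hM0 : 0 ≤ M := by
      have : 0 ≤ 1 - A j := by linarith
      positivity
    have hyF : y ∈ reach a T B m := reach_mono a (by omega) hy
    have hstep : ∀ l < j, |avg (K l) (fun g => f (a g y) - c)| ≤ M := by
      intro l hl
      refine avg_abs_le (hK l) fun g hg => ?_
      have h1 := reach_step a hy (hT l hl hg)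
      have h2 : m - (i + 1) + 1 = m - i := by omega
      rw [h2] at h1
      exact ih (by omega) _ h1
    have hall : ∀ l, |avg (K l) (fun g => f (a g y) - c)| ≤ 2 * C := by
      intro l
      refine avg_abs_le (hK l) fun g _ => ?_
      have h1 := hC (a g y)
      have h2 : |f (a g y) - c| ≤ |f (a g y)| + |c| := abs_sub _ _
      linarith
    have hj : avg (K j) (fun g => f (a g y) - c) = 0 := by
      rw [avg_sub (fun g => f (a g y)) (fun _ => c), hB y hyF, avg_const (hK j), sub_self]
    -- the equation for `f y - c`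
    have hint := mu_integral K hK (φ := fun g => f (a g y) - c) (C := 2 * C) (fun g => by
      have h1 := hC (a g y)
      have h2 : |f (a g y) - c| ≤ |f (a g y)| + |c| := abs_sub _ _
      linarith)
    have hprob := mu_isProb K hK
    have heq : f y - c = ∑' l, tau l * avg (K l) (fun g => f (a g y) - c) := by
      rw [← hint.tsum_eq]
      have h1 := harmonic_eq hprob hC hf y
      have h2 : Summable (fun g => mu K g * f (a g y)) :=
        (mu_integral K hK (φ := fun g => f (a g y)) (C := C) (fun g => hC _)).summable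
      have h3 : HasSum (fun g => mu K g * c) c := by
        simpa using hprob.2.mul_right c
      have h4 := (h2.hasSum.sub h3).tsum_eq
      rw [← h1] at h4
      rw [← h4]
      apply tsum_congr
      intro g
      ring
    have hsummable : Summable (fun l => tau l * avg (K l) (fun g => f (a g y) - c)) := by
      have h1 : Summable tau := by simpa using (hasSum_tau 0).summable
      refine Summable.of_norm_bounded (g := fun l => tau l * (2 * C)) (h1.mul_right _) fun l => ?_
      rw [Real.norm_eq_abs, abs_mul, abs_of_pos (tau_pos l)]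
      exact mul_le_mul_of_nonneg_left (hall l) (tau_pos l).le
    rw [← hsummable.sum_add_tsum_nat_add (j + 1), Finset.sum_range_succ, hj, mul_zero,
      add_zero] at heq
    have h5 : |∑ l ∈ Finset.range j, tau l * avg (K l) (fun g => f (a g y) - c)| ≤
        (1 - A j) * M := by
      refine (Finset.abs_sum_le_sum_abs _ _).trans ?_
      calc ∑ l ∈ Finset.range j, |tau l * avg (K l) (fun g => f (a g y) - c)|
          ≤ ∑ l ∈ Finset.range j, tau l * M := by
            apply Finset.sum_le_sum
            intro l hl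
            rw [abs_mul, abs_of_pos (tau_pos l)]
            exact mul_le_mul_of_nonneg_left (hstep l (Finset.mem_range.1 hl)) (tau_pos l).le
        _ = (1 - A j) * M := by
            rw [← Finset.sum_mul]
            have h6 := sum_tau 0 j
            simp only [add_zero, A_zero] at h6
            rw [h6]
    have h7 : |∑' l, tau (l + (j + 1)) * avg (K (l + (j + 1))) (fun g => f (a g y) - c)| ≤
        A (j + 1) * (2 * C) := by
      have h8 := (hasSum_tau (j + 1)).mul_right (2 * C)
      have h9 : ∀ l, |tau (l + (j + 1)) * avg (K (l + (j + 1))) (fun g => f (a g y) - c)| ≤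
          tau (l + (j + 1)) * (2 * C) := by
        intro l
        rw [abs_mul, abs_of_pos (tau_pos _)]
        exact mul_le_mul_of_nonneg_left (hall _) (tau_pos _).le
      rw [← h8.tsum_eq, ← Real.norm_eq_abs]
      exact tsum_of_norm_bounded h8.summable.hasSum (fun l => by
        rw [Real.norm_eq_abs]; exact h9 l)
    rw [heq]
    refine (abs_add_le _ _).trans ((add_le_add h5 h7).trans (le_of_eq ?_))
    rw [hM, pow_succ]
    field_simp
    ring

theorem pow_bound {x : ℝ} (h0 : 0 ≤ x) (h1 : x ≤ 1) (m : ℕ) : (1 - x) ^ m ≤ 1 / (1 + m * x) := by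
  rw [le_div_iff₀ (by positivity)]
  have h2 : 1 + m * x ≤ (1 + x) ^ m := one_add_mul_le_pow (by linarith) m
  calc (1 - x) ^ m * (1 + m * x) ≤ (1 - x) ^ m * (1 + x) ^ m :=
        mul_le_mul_of_nonneg_left h2 (pow_nonneg (by linarith) m)
    _ = ((1 - x) * (1 + x)) ^ m := by rw [mul_pow]
    _ ≤ 1 := pow_le_one₀ (by nlinarith) (by nlinarith)

end construction

section abstract

variable {G Y : Type} [Group G] (a : G → Y → Y)

open Classical in
/-- the next finite set of group elements -/
noncomputable def nextK (pick : Finset Y → Finset G) (gs : ℕ → G) (ys : ℕ → Y) (j : ℕ)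
    (T : Finset G) : Finset G :=
  if Even j then pick (reach a T ((Finset.range (j + 1)).image ys) (j * 2 ^ (j ^ 2)))
  else {gs (j / 2)}

open Classical in
/-- union of the sets constructed so far -/
noncomputable def seqT (pick : Finset Y → Finset G) (gs : ℕ → G) (ys : ℕ → Y) : ℕ → Finset G
  | 0 => ∅
  | j + 1 => seqT pick gs ys j ∪ nextK a pick gs ys j (seqT pick gs ys j)

theorem seqT_sub (pick : Finset Y → Finset G) (gs : ℕ → G) (ys : ℕ → Y) {l j : ℕ} (h : l < j) :
    nextK a pick gs ys l (seqT a pick gs ys l) ⊆ seqT a pick gs ys j := by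
  classical
  induction j, h using Nat.le_induction with
  | base => exact Finset.subset_union_right
  | succ j _ ih => exact ih.trans Finset.subset_union_left

theorem liouville_of [Countable G] [Countable Y] [Nonempty Y]
    (H : ∀ F : Finset Y, ∃ K : Finset G, K.Nonempty ∧ ∀ y ∈ F, ∀ y' ∈ F, ∀ f : Y → ℝ,
      ∑ g ∈ K, f (a g y) = ∑ g ∈ K, f (a g y')) : Liouville a := by
  classical
  choose pick hpick1 hpick2 using H
  obtain ⟨gs, hgs⟩ := exists_surjective_nat G
  obtain ⟨ys, hys⟩ := exists_surjective_nat Y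
  set T := seqT a pick gs ys with hTdef
  set K : ℕ → Finset G := fun j => nextK a pick gs ys j (T j) with hKdef
  have hK : ∀ j, (K j).Nonempty := by
    intro j
    simp only [hKdef, nextK]
    split_ifs
    · exact hpick1 _
    · exact Finset.singleton_nonempty _
  have hT : ∀ j, ∀ l < j, K l ⊆ T j := fun j l hl => seqT_sub a pick gs ys hl
  refine ⟨mu K, mu_isProb K hK, ?_, ?_⟩
  · -- non-degeneracy
    unfold NonDegenerate
    rw [eq_top_iff]
    intro g _
    apply Subsemigroup.subset_closure
    obtain ⟨k, hk⟩ := hgs g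
    have h1 : g ∈ K (2 * k + 1) := by
      simp only [hKdef, nextK]
      rw [if_neg (by simp)]
      have : (2 * k + 1) / 2 = k := by omega
      rw [this, hk]
      exact Finset.mem_singleton_self g
    have h2 : 0 < tau (2 * k + 1) * unif (K (2 * k + 1)) g := by
      apply mul_pos (tau_pos _)
      unfold unif
      rw [if_pos h1]
      have : 0 < ((K (2 * k + 1)).card : ℝ) := by exact_mod_cast (hK _).card_pos
      positivity
    have h3 : tau (2 * k + 1) * unif (K (2 * k + 1)) g ≤ mu K g :=
      (summable_mu K hK g).le_tsum (2 * k + 1) fun j _ =>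
        mul_nonneg (tau_pos _).le (unif_nonneg _ _)
    exact (h2.trans_le h3).ne'
  · intro f ⟨C, hC⟩ hf
    have hC0 : 0 ≤ C := (abs_nonneg _).trans (hC (ys 0))
    -- the estimate at even stages
    have key : ∀ j, Even j → ∃ c : ℝ, ∀ i ≤ j, |f (ys i) - c| ≤ 4 * C / (j + 1) := by
      intro j hj
      set m := j * 2 ^ (j ^ 2) with hm
      set B := (Finset.range (j + 1)).image ys with hB
      have hmem : ∀ i ≤ j, ys i ∈ reach a (T j) B 0 := by
        intro i hi
        exact Finset.mem_image_of_mem _ (Finset.mem_range.2 (by omega))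
      have hKj : K j = pick (reach a (T j) B m) := by
        simp only [hKdef, nextK]
        rw [if_pos hj]
      have h0m : ys 0 ∈ reach a (T j) B m := reach_mono a (Nat.zero_le m) (hmem 0 (Nat.zero_le j))
      refine ⟨avg (K j) (fun g => f (a g (ys 0))), fun i hi => ?_⟩
      have hc : |avg (K j) (fun g => f (a g (ys 0)))| ≤ C := avg_abs_le (hK j) fun g _ => hC _
      have hBall : ∀ y ∈ reach a (T j) B m, avg (K j) (fun g => f (a g y)) =
          avg (K j) (fun g => f (a g (ys 0))) := by
        intro y hy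
        unfold avg
        rw [hKj, hpick2 _ y hy (ys 0) h0m f]
      have hest := estimate a K hK hC hf (hT j) hc hBall m le_rfl (ys i) (by
        rw [Nat.sub_self]; exact hmem i hi)
      refine hest.trans ?_
      have hA := A_pos j
      have hA1 : A j ≤ 1 := by unfold A; exact pow_le_one₀ (by norm_num) (by norm_num)
      have hj0 : (0 : ℝ) < (j : ℝ) + 1 := by positivity
      have h1 : (1 - A j) ^ m ≤ 1 / (j + 1) := by
        refine (pow_bound hA.le hA1 m).trans (le_of_eq ?_)
        have : (m : ℝ) * A j = j := by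
          rw [hm]
          push_cast
          unfold A
          rw [mul_assoc, ← mul_pow]
          norm_num
        rw [this, add_comm]
      have h2 : A (j + 1) / A j ≤ 1 / (j + 1) := by
        have h3 : A (j + 1) = A j * (1 / 2) ^ (2 * j + 1) := by
          unfold A
          rw [← pow_add]
          congr 1
          ring
        rw [h3, mul_div_cancel_left₀ _ hA.ne', one_div_pow]
        apply one_div_le_one_div_of_le hj0
        have h4 : (2 * j + 1) < 2 ^ (2 * j + 1) := Nat.lt_two_pow_self
        have h5 : ((2 * j + 1 : ℕ) : ℝ) ≤ ((2 ^ (2 * j + 1) : ℕ) : ℝ) := by exact_mod_cast h4.le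
        push_cast at h5
        have h6 : (0 : ℝ) ≤ j := by positivity
        linarith
      have h7 : (1 - A j) ^ m * (2 * C) ≤ 1 / (j + 1) * (2 * C) :=
        mul_le_mul_of_nonneg_right h1 (by linarith)
      have h8 : 2 * C * (A (j + 1) / A j) ≤ 2 * C * (1 / (j + 1)) :=
        mul_le_mul_of_nonneg_left h2 (by linarith)
      have h9 : 1 / ((j : ℝ) + 1) * (2 * C) + 2 * C * (1 / (j + 1)) = 4 * C / (j + 1) := by
        field_simp; ring
      linarith
    intro y z
    obtain ⟨i, rfl⟩ := hys y
    obtain ⟨i', rfl⟩ := hys z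
    have h : ∀ n : ℕ, |f (ys i) - f (ys i')| ≤ 8 * C / (n + 1) := by
      intro n
      have hj : Even (2 * (n + i + i')) := even_two_mul _
      obtain ⟨c, hc⟩ := key (2 * (n + i + i')) hj
      have h1 := hc i (by omega)
      have h2 := hc i' (by omega)
      have h3 : |f (ys i) - f (ys i')| ≤ |f (ys i) - c| + |f (ys i') - c| := by
        have := abs_sub (f (ys i) - c) (f (ys i') - c)
        rwa [sub_sub_sub_cancel_right] at this
      have h4 : 4 * C / (((2 * (n + i + i') : ℕ) : ℝ) + 1) ≤ 4 * C / (n + 1) := by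
        apply div_le_div_of_nonneg_left (by linarith) (by positivity)
        push_cast
        have e1 : (0 : ℝ) ≤ n := by positivity
        have e2 : (0 : ℝ) ≤ i := by positivity
        have e3 : (0 : ℝ) ≤ i' := by positivity
        linarith
      have h5 : 8 * C / ((n : ℝ) + 1) = 4 * C / (n + 1) + 4 * C / (n + 1) := by ring
      linarith
    have hlim : Filter.Tendsto (fun n : ℕ => 8 * C / ((n : ℝ) + 1)) Filter.atTop (nhds 0) :=
      tendsto_const_div_atTop_nhds_zero_nat (8 * C) |>.comp (Filter.tendsto_add_atTop_nat 1) |>.congr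
        fun n => by simp
    have h6 : |f (ys i) - f (ys i')| ≤ 0 := ge_of_tendsto' hlim h
    exact sub_eq_zero.1 (abs_nonpos_iff.1 h6)

end abstract

/-! ### The group -/

/-- the free group of rank two, as a set of points -/
abbrev F₂ := FreeGroup (Fin 2)

/-- permutations which agree with a left translation up to finitely many points -/
def Gr : Subgroup (Perm F₂) where
  carrier := {g | ∃ x : F₂, {y | g y ≠ x * y}.Finite}
  mul_mem' := by
    rintro g h ⟨x, hx⟩ ⟨x', hx'⟩
    refine ⟨x * x', (hx'.union (hx.preimage h.injective.injOn)).subset fun y hy => ?_⟩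
    by_contra hcon
    simp only [Set.mem_union, Set.mem_preimage, Set.mem_ofPred_eq, not_or, not_not] at hcon
    apply hy
    rw [Perm.mul_apply, hcon.2, hcon.1, mul_assoc]
  one_mem' := ⟨1, by simp⟩
  inv_mem' := by
    rintro g ⟨x, hx⟩
    refine ⟨x⁻¹, (hx.preimage (f := ⇑g⁻¹) (g⁻¹).injective.injOn).subset fun y hy => ?_⟩
    by_contra hcon
    simp only [Set.mem_preimage, Set.mem_ofPred_eq, not_not] at hcon
    apply hy
    have h1 : g (g⁻¹ y) = y := by rw [← Perm.mul_apply, mul_inv_cancel]; rfl
    rw [h1] at hcon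
    rw [eq_inv_mul_iff_mul_eq, ← hcon]

theorem finitary_mem {g : Perm F₂} (hg : {y | g y ≠ y}.Finite) : g ∈ Gr :=
  ⟨1, by simpa using hg⟩

/-- left translation -/
def tr (x : F₂) : Gr := ⟨Equiv.mulLeft x, ⟨x, by simp⟩⟩

instance : Countable Gr := by
  classical
  choose x hx using fun g : Gr => g.2
  have hinj : Function.Injective (fun g : Gr =>
      (x g, ((hx g).toFinset.image (fun y => (y, (g : Perm F₂) y)) : Finset (F₂ × F₂)))) := by
    intro g h hgh
    simp only [Prod.mk.injEq] at hgh
    obtain ⟨h1, h2⟩ := hgh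
    have key : ∀ g h : Gr, x g = x h →
        (hx g).toFinset.image (fun y => (y, (g : Perm F₂) y)) =
          (hx h).toFinset.image (fun y => (y, (h : Perm F₂) y)) →
        ∀ y, (g : Perm F₂) y ≠ x g * y → (g : Perm F₂) y = (h : Perm F₂) y := by
      intro g h _ h2 y hy
      have h3 : (y, (g : Perm F₂) y) ∈ (hx g).toFinset.image (fun y => (y, (g : Perm F₂) y)) :=
        Finset.mem_image.2 ⟨y, (Set.Finite.mem_toFinset _).2 hy, rfl⟩
      rw [h2] at h3
      obtain ⟨z, -, hz⟩ := Finset.mem_image.1 h3
      obtain ⟨rfl, hz'⟩ := Prod.mk.inj hz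
      exact hz'.symm
    apply Subtype.ext
    ext1 y
    by_cases hy : (g : Perm F₂) y = x g * y
    · by_cases hy' : (h : Perm F₂) y = x h * y
      · rw [hy, hy', h1]
      · exact (key h g h1.symm h2.symm y hy').symm
    · exact key g h h1 h2 y hy
  exact hinj.countable

theorem gr_not_amenable : ¬ Amenable Gr := by
  rintro ⟨m, hm0, hm1, hadd, hinv⟩
  -- push forward to the free group
  let M : Set F₂ → ℝ := fun A => m {g : Gr | (g : Perm F₂) 1 ∈ A}
  have M0 : ∀ A, 0 ≤ M A := fun A => hm0 _
  have Muniv : M Set.univ = 1 := by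
    have : {g : Gr | (g : Perm F₂) 1 ∈ (Set.univ : Set F₂)} = Set.univ := by ext; simp
    change m _ = 1
    rw [this, hm1]
  have Madd : ∀ A B, Disjoint A B → M (A ∪ B) = M A + M B := by
    intro A B hAB
    change m _ = m _ + m _
    rw [← hadd]
    · rfl
    · rw [Set.disjoint_left] at hAB ⊢
      intro g hg hg'
      exact hAB hg hg'
  have Minv : ∀ (x : F₂) (A : Set F₂), M ((x * ·) '' A) = M A := by
    intro x A
    change m _ = m _
    rw [← hinv (tr x) {g : Gr | (g : Perm F₂) 1 ∈ A}]
    congr 1
    ext g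
    constructor
    · rintro ⟨y, hy, hxy⟩
      refine ⟨(tr x)⁻¹ * g, ?_, by simp⟩
      have h1 : (tr x : Perm F₂) y = (g : Perm F₂) 1 := hxy
      have h2 : (((tr x)⁻¹ * g : Gr) : Perm F₂) 1 = y := by
        change ((tr x : Perm F₂)⁻¹ * (g : Perm F₂)) 1 = y
        rw [Perm.mul_apply, Perm.inv_eq_iff_eq, h1]
      change (((tr x)⁻¹ * g : Gr) : Perm F₂) 1 ∈ A
      rw [h2]; exact hy
    · rintro ⟨h, hh, rfl⟩
      exact ⟨(h : Perm F₂) 1, hh, rfl⟩
  have Mmono : ∀ A B, A ⊆ B → M A ≤ M B := by
    intro A B hAB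
    have h1 := Madd A (B \ A) Set.disjoint_sdiff_right
    rw [Set.union_sdiff_cancel hAB] at h1
    linarith [M0 (B \ A)]
  have Msub : ∀ A B, M (A ∪ B) ≤ M A + M B := by
    intro A B
    have h1 := Madd A (B \ A) Set.disjoint_sdiff_right
    rw [Set.union_sdiff_self] at h1
    linarith [Mmono (B \ A) B Set.sdiff_subset]
  -- words starting with a given letter
  let W : Fin 2 × Bool → Set F₂ := fun p => {w | w.toWord.head? = some p}
  have hW : ∀ i : Fin 2, 1 ≤ M (W (i, true)) + M (W (i, false)) := by
    intro i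
    rw [← Muniv, ← Minv (FreeGroup.of i) (W (i, false))]
    refine le_trans (Mmono _ _ fun w _ => ?_) (Msub _ _)
    by_cases hw : w ∈ W (i, true)
    · exact Or.inl hw
    · right
      refine ⟨(FreeGroup.of i)⁻¹ * w, ?_, by simp⟩
      change ((FreeGroup.of i)⁻¹ * w).toWord.head? = some (i, false)
      have h1 : ((FreeGroup.of i)⁻¹ * w).toWord = (i, false) :: w.toWord := by
        rw [FreeGroup.toWord_mul]
        have h2 : ((FreeGroup.of i)⁻¹ : F₂).toWord = [(i, false)] := by
          rw [FreeGroup.toWord_inv, FreeGroup.toWord_of]; rfl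
        rw [h2, List.singleton_append, FreeGroup.reduce.cons, FreeGroup.reduce_toWord]
        have h3 : w.toWord.head? ≠ some (i, true) := hw
        cases hl : w.toWord with
        | nil => rfl
        | cons hd tl =>
          rw [hl] at h3
          change (if (i, false).1 = hd.1 ∧ (i, false).2 = !hd.2 then tl else (i, false) :: hd :: tl) = _
          rw [if_neg]
          rintro ⟨e1, e2⟩
          apply h3
          rw [List.head?_cons]
          congr 1
          apply Prod.ext
          · exact e1.symm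
          · change hd.2 = true
            simpa using e2
      rw [h1]; rfl
  have hdisj : ∀ p q : Fin 2 × Bool, p ≠ q → Disjoint (W p) (W q) := by
    intro p q hpq
    rw [Set.disjoint_left]
    intro w h1 h2
    have h1' : w.toWord.head? = some p := h1
    have h2' : w.toWord.head? = some q := h2
    rw [h1'] at h2'
    exact hpq (Option.some.inj h2')
  have e1 := Madd (W (0, true)) (W (0, false)) (hdisj _ _ (by simp))
  have e2 := Madd (W (1, true)) (W (1, false)) (hdisj _ _ (by simp))
  have e3 := Madd (W (0, true) ∪ W (0, false)) (W (1, true) ∪ W (1, false)) (by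
    rw [Set.disjoint_union_left, Set.disjoint_union_right, Set.disjoint_union_right]
    exact ⟨⟨hdisj _ _ (by simp), hdisj _ _ (by simp)⟩, ⟨hdisj _ _ (by simp), hdisj _ _ (by simp)⟩⟩)
  have e4 := Mmono _ _ (Set.subset_univ
    ((W (0, true) ∪ W (0, false)) ∪ (W (1, true) ∪ W (1, false))))
  have e5 := hW 0
  have e6 := hW 1
  rw [Muniv] at e4
  linarith

theorem exists_perm {X : Type} [DecidableEq X] (D E E' : Finset X) (hE : E ⊆ D) (hE' : E' ⊆ D)
    (hn : E.card = E'.card) :
    ∃ π : Perm {x // x ∈ D}, E'.map (Perm.ofSubtype π).toEmbedding = E := by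
  have h1 : (E'.subtype (· ∈ D)).card = (E.subtype (· ∈ D)).card := by
    rw [Finset.card_subtype, Finset.card_subtype, Finset.filter_true_of_mem fun x hx => hE' hx,
      Finset.filter_true_of_mem fun x hx => hE hx, hn]
  let e : {x // x ∈ E'.subtype (· ∈ D)} ≃ {x // x ∈ E.subtype (· ∈ D)} := Finset.equivOfCardEq h1
  refine ⟨e.extendSubtype, ?_⟩
  apply Finset.eq_of_subset_of_card_le
  · intro x hx
    obtain ⟨y, hy, rfl⟩ := Finset.mem_map.1 hx
    have h2 : (⟨y, hE' hy⟩ : {x // x ∈ D}) ∈ E'.subtype (· ∈ D) := Finset.mem_subtype.2 hy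
    have h3 := e.extendSubtype_mem ⟨y, hE' hy⟩ h2
    change Perm.ofSubtype e.extendSubtype y ∈ E
    rw [Perm.ofSubtype_apply_of_mem _ (hE' hy)]
    exact Finset.mem_subtype.1 h3
  · rw [Finset.card_map, hn]

theorem ofSubtype_mem (D : Finset F₂) (π : Perm {x // x ∈ D}) : Perm.ofSubtype π ∈ Gr := by
  apply finitary_mem
  refine D.finite_toSet.subset fun y hy => ?_
  by_contra hcon
  exact hy (Perm.ofSubtype_apply_of_not_mem π hcon)

/-- a finitary permutation as element of the group -/
noncomputable def fin (D : Finset F₂) (π : Perm {x // x ∈ D}) : Gr := ⟨_, ofSubtype_mem D π⟩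

/-- There are a countable group which is not amenable and a faithful action of it on a set `X`
such that for every `n ≥ 1` the induced action on the `n`-element subsets of `X` is Liouville. -/
theorem result : ∃ (G : Type) (_ : Group G) (X : Type) (_ : MulAction G X), Countable G ∧
    FaithfulSMul G X ∧ ¬ Amenable G ∧
    ∀ n : ℕ, 1 ≤ n → Liouville (fun (g : G) (E : PSub X n) => subAct n g E) := by
  classical
  refine ⟨Gr, inferInstance, F₂, inferInstance, inferInstance, inferInstance, gr_not_amenable,
    fun n _ => ?_⟩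
  have : Nonempty (PSub F₂ n) := by
    obtain ⟨t, ht⟩ := Infinite.exists_subset_card_eq F₂ n
    exact ⟨⟨t, ht⟩⟩
  apply liouville_of
  intro F
  let D : Finset F₂ := F.biUnion (fun E => E.1)
  have hD : ∀ E ∈ F, E.1 ⊆ D := fun E hE => Finset.subset_biUnion_of_mem (fun E : PSub F₂ n => E.1) hE
  have hinj : Function.Injective (fin D) := by
    intro π π' h
    exact Perm.ofSubtype_injective (congrArg Subtype.val h)
  refine ⟨Finset.univ.map ⟨fin D, hinj⟩, Finset.univ_nonempty.map, fun y hy y' hy' f => ?_⟩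
  obtain ⟨π₀, hπ₀⟩ := exists_perm D y.1 y'.1 (hD y hy) (hD y' hy') (by rw [y.2, y'.2])
  rw [Finset.sum_map, Finset.sum_map]
  change ∑ π, f (subAct n (fin D π) y) = ∑ π, f (subAct n (fin D π) y')
  rw [← Equiv.sum_comp (Equiv.mulRight π₀) (fun π => f (subAct n (fin D π) y'))]
  apply Finset.sum_congr rfl
  intro π _
  change f (subAct n (fin D π) y) = f (subAct n (fin D (π * π₀)) y')
  congr 1
  apply Subtype.ext
  ext x
  change x ∈ y.1.map (MulAction.toPerm (fin D π)).toEmbedding ↔
    x ∈ y'.1.map (MulAction.toPerm (fin D (π * π₀))).toEmbedding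
  rw [← hπ₀]
  simp only [Finset.mem_map, Equiv.coe_toEmbedding]
  have hmul : ∀ z : F₂, (MulAction.toPerm (fin D (π * π₀)) : Perm F₂) z =
      (MulAction.toPerm (fin D π) : Perm F₂) (Perm.ofSubtype π₀ z) := by
    intro z
    change Perm.ofSubtype (π * π₀) z = Perm.ofSubtype π (Perm.ofSubtype π₀ z)
    rw [map_mul, Perm.mul_apply]
  constructor
  · rintro ⟨w, ⟨z, hz, rfl⟩, rfl⟩
    exact ⟨z, hz, hmul z⟩
  · rintro ⟨z, hz, rfl⟩
    exact ⟨_, ⟨z, hz, rfl⟩, (hmul z).symm⟩

end Pool.Agent.Results.MP_2579e4_al.NonamenableLiouville
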